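import Mathlib

/-!
# Malcev-Neumann series

For a linearly ordered (not necessarily commutative) group `G` and a field `k`, the formal series
with well-ordered support form a division ring; it is an ordered division ring when `k` is an
ordered field.
-/

set_option autoImplicit false
set_option linter.unusedSectionVars false

open Function HahnSeries

namespace Pool.Agent.Y125.MN

section Conv

variable {G : Type*} [Group G] [LinearOrder G] [MulLeftStrictMono G] [MulRightStrictMono G]

/-- finiteness of the set of factorisations -/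
lemma finite_antidiag {A B : Set G} (hA : A.IsPWO) (hB : B.IsPWO) (z : G) :
    {x | x ∈ A ∧ x⁻¹ * z ∈ B}.Finite := by
  by_contra hinf
  have hinf' : {x | x ∈ A ∧ x⁻¹ * z ∈ B}.Infinite := hinf
  let e := hinf'.natEmbedding
  obtain ⟨g, hg⟩ := hA.exists_monotone_subseq (f := fun n => ((e n : _) : G))
    (fun n => (e n).2.1)
  obtain ⟨g', hg'⟩ := hB.exists_monotone_subseq (f := fun n => ((e (g n) : _) : G)⁻¹ * z)
    (fun n => (e (g n)).2.2)
  have h01 : g' 0 < g' 1 := g'.strictMono Nat.zero_lt_one
  have h1 : ((e (g (g' 0)) : _) : G) ≤ ((e (g (g' 1)) : _) : G) := hg h01.le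
  have h2 : ((e (g (g' 0)) : _) : G)⁻¹ * z ≤ ((e (g (g' 1)) : _) : G)⁻¹ * z :=
    hg' (Nat.zero_le 1)
  have hne : ((e (g (g' 0)) : _) : G) ≠ ((e (g (g' 1)) : _) : G) := by
    intro h
    have := e.injective (Subtype.ext h)
    have := g.injective this
    omega
  have hlt := lt_of_le_of_ne h1 hne
  have h3 : ((e (g (g' 1)) : _) : G)⁻¹ < ((e (g (g' 0)) : _) : G)⁻¹ := inv_lt_inv_iff.2 hlt
  have h5 := mul_lt_mul_left h3 z
  exact absurd h2 (not_le.2 h5)

/-- product of well-ordered sets -/
lemma pwo_mul {A B : Set G} (hA : A.IsPWO) (hB : B.IsPWO) :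
    {z | ∃ x ∈ A, ∃ y ∈ B, x * y = z}.IsPWO := by
  have h : ((fun p : G × G => p.1 * p.2) '' (A ×ˢ B)).IsPWO := by
    refine (hA.prod hB).image_of_monotone ?_
    intro p q hpq
    have h1 : p.1 * p.2 ≤ q.1 * p.2 := by
      rcases eq_or_lt_of_le hpq.1 with h | h
      · rw [h]
      · exact (mul_lt_mul_left h _).le
    have h2 : q.1 * p.2 ≤ q.1 * q.2 := by
      rcases eq_or_lt_of_le hpq.2 with h | h
      · rw [h]
      · exact (mul_lt_mul_right h _).le
    exact h1.trans h2
  refine h.mono ?_
  rintro z ⟨x, hx, y, hy, rfl⟩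
  exact ⟨(x, y), ⟨hx, hy⟩, rfl⟩

variable {k : Type*} [Field k]

/-- convolution -/
noncomputable def conv (f g : G → k) (z : G) : k := ∑ᶠ x, f x * g (x⁻¹ * z)

lemma hfs (f g : G → k) (hf : (support f).IsPWO) (hg : (support g).IsPWO) (z : G) :
    HasFiniteSupport (fun x => f x * g (x⁻¹ * z)) := by
  refine (finite_antidiag hf hg z).subset ?_
  intro x hx
  exact ⟨left_ne_zero_of_mul hx, right_ne_zero_of_mul hx⟩

lemma exists_of_conv_ne {f g : G → k} {z : G} (h : conv f g z ≠ 0) :
    ∃ x, f x ≠ 0 ∧ g (x⁻¹ * z) ≠ 0 := by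
  by_contra hc
  push Not at hc
  apply h
  unfold conv
  have : (fun x => f x * g (x⁻¹ * z)) = fun _ => 0 := by
    funext x
    by_cases hx : f x = 0
    · rw [hx, zero_mul]
    · rw [hc x hx, mul_zero]
  rw [this, finsum_zero]

lemma conv_pwo {f g : G → k} (hf : (support f).IsPWO) (hg : (support g).IsPWO) :
    (support (conv f g)).IsPWO := by
  refine (pwo_mul hf hg).mono ?_
  intro z hz
  obtain ⟨x, hx, hy⟩ := exists_of_conv_ne hz
  exact ⟨x, hx, x⁻¹ * z, hy, by group⟩

lemma conv_zero_left (g : G → k) : conv (0 : G → k) g = 0 := by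
  funext z; simp [conv]

lemma conv_zero_right (g : G → k) : conv g (0 : G → k) = 0 := by
  funext z; simp [conv]

lemma conv_add_left {f f' g : G → k} (hf : (support f).IsPWO) (hf' : (support f').IsPWO)
    (hg : (support g).IsPWO) : conv (f + f') g = conv f g + conv f' g := by
  funext z
  simp only [conv, Pi.add_apply, add_mul]
  exact finsum_add_distrib (hfs f g hf hg z) (hfs f' g hf' hg z)

lemma conv_add_right {f g g' : G → k} (hf : (support f).IsPWO) (hg : (support g).IsPWO)
    (hg' : (support g').IsPWO) : conv f (g + g') = conv f g + conv f g' := by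
  funext z
  simp only [conv, Pi.add_apply, mul_add]
  exact finsum_add_distrib (hfs f g hf hg z) (hfs f g' hf hg' z)

lemma conv_assoc {f g h : G → k} (hf : (support f).IsPWO) (hg : (support g).IsPWO)
    (hh : (support h).IsPWO) : conv (conv f g) h = conv f (conv g h) := by
  funext z
  set F : G × G → k := fun p => f p.2 * g (p.2⁻¹ * p.1) * h (p.1⁻¹ * z) with hF
  have hfin : HasFiniteSupport F := by
    have h1 := finite_antidiag (pwo_mul hf hg) hh z
    have h2 : (⋃ x ∈ {x | x ∈ {z | ∃ x ∈ support f, ∃ y ∈ support g, x * y = z} ∧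
        x⁻¹ * z ∈ support h}, (fun y => (x, y)) '' {y | y ∈ support f ∧
          y⁻¹ * x ∈ support g}).Finite :=
      h1.biUnion fun x _ => (finite_antidiag hf hg x).image _
    refine h2.subset ?_
    rintro ⟨x, y⟩ hxy
    have hh' : h (x⁻¹ * z) ≠ 0 := right_ne_zero_of_mul hxy
    have hfg : f y * g (y⁻¹ * x) ≠ 0 := left_ne_zero_of_mul hxy
    have hf' : f y ≠ 0 := left_ne_zero_of_mul hfg
    have hg' : g (y⁻¹ * x) ≠ 0 := right_ne_zero_of_mul hfg
    simp only [Set.mem_iUnion, Set.mem_image]
    refine ⟨x, ⟨⟨y, hf', y⁻¹ * x, hg', by group⟩, hh'⟩, y, ⟨hf', hg'⟩, rfl⟩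
  have hfin' : HasFiniteSupport (F ∘ Prod.swap) := by
    have : support (F ∘ Prod.swap) = Prod.swap ⁻¹' support F := rfl
    unfold HasFiniteSupport
    rw [this]
    exact hfin.preimage Prod.swap_injective.injOn
  have hL : conv (conv f g) h z = ∑ᶠ p, F p := by
    rw [finsum_curry F hfin]
    simp only [conv, hF]
    refine finsum_congr fun x => ?_
    rw [finsum_mul]
  have hR : conv f (conv g h) z = ∑ᶠ p, F p := by
    rw [← finsum_comp_equiv (Equiv.prodComm G G) (f := F)]
    change _ = ∑ᶠ p, (F ∘ Prod.swap) p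
    rw [finsum_curry (F ∘ Prod.swap) hfin']
    simp only [conv, hF]
    refine finsum_congr fun y => ?_
    rw [mul_finsum, ← finsum_comp_equiv (Equiv.mulLeft y⁻¹)]
    refine finsum_congr fun x => ?_
    simp only [Equiv.coe_mulLeft, comp_apply, Prod.swap_prod_mk]
    rw [mul_assoc]
    congr 3
    group
  rw [hL, hR]

end Conv

/-! ### The ring -/

/-- Malcev-Neumann series -/
def Ser (G : Type*) (k : Type*) [LinearOrder G] [Field k] : Type _ := Lex (HahnSeries G k)

namespace Ser

variable {G : Type*} [LinearOrder G] {k : Type*} [Field k]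

/-- coefficients -/
def c (f : Ser G k) : G → k := (ofLex (show Lex (HahnSeries G k) from f)).coeff

/-- constructor -/
def mk (f : G → k) (hf : (support f).IsPWO) : Ser G k := toLex (⟨f, hf⟩ : HahnSeries G k)

@[simp] lemma c_mk (f : G → k) (hf : (support f).IsPWO) : c (mk f hf) = f := rfl

lemma pwo (f : Ser G k) : (support (c f)).IsPWO :=
  (ofLex (show Lex (HahnSeries G k) from f)).isPWO_support'

lemma ext {f g : Ser G k} (h : c f = c g) : f = g :=
  HahnSeries.coeff_injective h

noncomputable instance : AddCommGroup (Ser G k) :=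
  inferInstanceAs (AddCommGroup (Lex (HahnSeries G k)))

@[simp] lemma c_add (f g : Ser G k) : c (f + g) = c f + c g := rfl
@[simp] lemma c_zero : c (0 : Ser G k) = 0 := rfl
@[simp] lemma c_neg (f : Ser G k) : c (-f) = - c f := rfl
@[simp] lemma c_sub (f g : Ser G k) : c (f - g) = c f - c g := by
  rw [sub_eq_add_neg, c_add, c_neg, sub_eq_add_neg]

variable [Group G] [MulLeftStrictMono G] [MulRightStrictMono G]

noncomputable instance : Mul (Ser G k) := ⟨fun f g => mk (conv (c f) (c g)) (conv_pwo (pwo f) (pwo g))⟩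

lemma c_mul (f g : Ser G k) : c (f * g) = conv (c f) (c g) := rfl

/-- monomials -/
noncomputable def mono (a : G) (r : k) : Ser G k :=
  mk (fun x => if x = a then r else 0) (by
    refine (Set.finite_singleton a).isPWO.mono ?_
    intro x hx
    by_contra h
    apply hx
    exact if_neg h)

lemma c_mono (a : G) (r : k) (x : G) : c (mono a r) x = if x = a then r else 0 := rfl

lemma c_mono_mul (a : G) (r : k) (g : Ser G k) (z : G) :
    c (mono a r * g) z = r * c g (a⁻¹ * z) := by
  rw [c_mul]
  unfold conv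
  rw [finsum_eq_single _ a]
  · simp [c_mono]
  · intro x hx
    rw [c_mono, if_neg hx, zero_mul]

lemma c_mul_mono (a : G) (r : k) (g : Ser G k) (z : G) :
    c (g * mono a r) z = c g (z * a⁻¹) * r := by
  rw [c_mul]
  unfold conv
  rw [finsum_eq_single _ (z * a⁻¹)]
  · rw [c_mono, if_pos (by group)]
  · intro x hx
    rw [c_mono, if_neg, mul_zero]
    intro h
    apply hx
    rw [← h]; group

noncomputable instance : One (Ser G k) := ⟨mono 1 1⟩

lemma one_def : (1 : Ser G k) = mono 1 1 := rfl

lemma mono_mul_mono (a b : G) (r s : k) : mono a r * mono b s = mono (a * b) (r * s) := by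
  apply ext
  funext z
  rw [c_mono_mul, c_mono, c_mono]
  by_cases h : z = a * b
  · rw [if_pos h, if_pos (by rw [h]; group)]
  · rw [if_neg h, if_neg, mul_zero]
    intro h'
    apply h
    rw [← h']; group

noncomputable instance : Ring (Ser G k) :=
  { (inferInstance : AddCommGroup (Ser G k)) with
    mul := (· * ·)
    one := 1
    left_distrib := fun f g h => ext (by
      rw [c_add, c_mul, c_mul, c_mul, c_add]
      exact conv_add_right (pwo f) (pwo g) (pwo h))
    right_distrib := fun f g h => ext (by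
      rw [c_add, c_mul, c_mul, c_mul, c_add]
      exact conv_add_left (pwo f) (pwo g) (pwo h))
    zero_mul := fun f => ext (conv_zero_left _)
    mul_zero := fun f => ext (conv_zero_right _)
    mul_assoc := fun f g h => ext (conv_assoc (pwo f) (pwo g) (pwo h))
    one_mul := fun f => ext (by
      funext z
      rw [one_def, c_mono_mul]; simp)
    mul_one := fun f => ext (by
      funext z
      rw [one_def, c_mul_mono]; simp) }

instance : Nontrivial (Ser G k) := ⟨⟨1, 0, fun h => by
  have := congrFun (congrArg c h) 1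
  rw [one_def, c_mono] at this
  simp at this⟩⟩

/-! ### Leading terms -/

/-- `a` is the least element of the support -/
def Lead (f : Ser G k) (a : G) : Prop := c f a ≠ 0 ∧ ∀ b < a, c f b = 0

lemma exists_lead {f : Ser G k} (hf : f ≠ 0) : ∃ a, Lead f a := by
  have hne : (support (c f)).Nonempty := by
    rw [Function.support_nonempty_iff]
    intro h
    exact hf (ext h)
  have hwf := (pwo f).isWF
  refine ⟨hwf.min hne, hwf.min_mem hne, fun b hb => ?_⟩
  by_contra h
  exact hwf.not_lt_min hne h hb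

lemma c_mul_lead {f g : Ser G k} {a b : G} (ha : Lead f a) (hb : Lead g b) :
    c (f * g) (a * b) = c f a * c g b := by
  rw [c_mul]
  unfold conv
  rw [finsum_eq_single _ a]
  · congr 2; group
  · intro x hx
    by_cases h : x < a
    · rw [ha.2 x h, zero_mul]
    · have hlt : a < x := lt_of_le_of_ne (not_lt.1 h) (Ne.symm hx)
      rw [hb.2, mul_zero]
      have h1 : x⁻¹ < a⁻¹ := inv_lt_inv_iff.2 hlt
      have h2 := mul_lt_mul_left h1 (a * b)
      simpa using h2

lemma c_mul_lt {f g : Ser G k} {a b : G} (ha : Lead f a) (hb : Lead g b) {z : G}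
    (hz : z < a * b) : c (f * g) z = 0 := by
  by_contra h
  obtain ⟨x, hx, hy⟩ := exists_of_conv_ne h
  have h1 : a ≤ x := by
    by_contra hc
    exact hx (ha.2 x (not_le.1 hc))
  have h2 : b ≤ x⁻¹ * z := by
    by_contra hc
    exact hy (hb.2 _ (not_le.1 hc))
  have h3 : a * b ≤ x * b := by
    rcases eq_or_lt_of_le h1 with h | h
    · rw [h]
    · exact (mul_lt_mul_left h _).le
  have h4 : x * b ≤ x * (x⁻¹ * z) := by
    rcases eq_or_lt_of_le h2 with h | h
    · rw [← h]
    · exact (mul_lt_mul_right h _).le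
  have h5 := h3.trans h4
  rw [mul_inv_cancel_left] at h5
  exact absurd hz (not_lt.2 h5)

/-! ### Inverses -/

/-- `h'` agrees with `h` on the lower closure of the support of `h` -/
def Ext (h h' : Ser G k) : Prop := ∀ x, c h x ≠ 0 → ∀ y ≤ x, c h y = c h' y

lemma Ext.trans {h h' h'' : Ser G k} (h1 : Ext h h') (h2 : Ext h' h'') : Ext h h'' := by
  intro x hx y hy
  rw [h1 x hx y hy]
  exact h2 x (by rw [← h1 x hx x le_rfl]; exact hx) y hy

/-- approximations of the right inverse -/
def Good (f : Ser G k) (a : G) (h : Ser G k) : Prop :=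
  ∀ x, c h x ≠ 0 → ∀ y, c (1 - f * h) y ≠ 0 → a * x < y

lemma exists_ub {f : Ser G k} {a : G} (ha : Lead f a) (C : Set (Ser G k))
    (hC : ∀ h ∈ C, Good f a h) (hch : IsChain Ext C) :
    ∃ u, Good f a u ∧ ∀ h ∈ C, Ext h u := by
  classical
  set F : G → k := fun y => if hy : ∃ h ∈ C, ∃ x, y ≤ x ∧ c h x ≠ 0 then c hy.choose y else 0
    with hF
  have key : ∀ h ∈ C, ∀ x, c h x ≠ 0 → ∀ y ≤ x, c h y = F y := by
    intro h hh x hx y hy
    have hex : ∃ h ∈ C, ∃ x, y ≤ x ∧ c h x ≠ 0 := ⟨h, hh, x, hy, hx⟩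
    have hval : F y = c hex.choose y := by
      simp only [hF]
      rw [dif_pos hex]
    rw [hval]
    obtain ⟨hm, x', hyx', hx'⟩ := hex.choose_spec
    by_cases heq : h = hex.choose
    · rw [← heq]
    · rcases hch hh hm heq with h1 | h1
      · exact h1 x hx y hy
      · exact (h1 x' hx' y hyx').symm
  have hFne : ∀ y, F y ≠ 0 → ∃ h ∈ C, ∃ x, y ≤ x ∧ c h x ≠ 0 := by
    intro y hy
    by_contra hc
    apply hy
    simp only [hF]
    rw [dif_neg hc]
  have hpwo : (support F).IsPWO := by
    rw [Set.isPWO_iff_isWF, Set.isWF_iff_no_descending_seq]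
    intro s hs hmem
    obtain ⟨h, hh, x, hyx, hx⟩ := hFne (s 0) (hmem 0)
    have hwf := (pwo h).isWF
    rw [Set.isWF_iff_no_descending_seq] at hwf
    refine hwf s hs ?_
    intro n
    have h0 : s n ≤ x := (hs.antitone (Nat.zero_le n)).trans hyx
    change c h (s n) ≠ 0
    rw [key h hh x hx (s n) h0]
    exact hmem n
  refine ⟨mk F hpwo, ?_, fun h hh x hx y hy => key h hh x hx y hy⟩
  intro x hx y hy
  by_contra hlt
  have hle : y ≤ a * x := not_lt.1 hlt
  obtain ⟨h, hh, x', hxx', hx'⟩ := hFne x hx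
  -- the residuals agree at `y`
  have hres : c (1 - f * mk F hpwo) y = c (1 - f * h) y := by
    rw [c_sub, c_sub]
    simp only [Pi.sub_apply]
    congr 1
    rw [c_mul, c_mul]
    unfold conv
    refine finsum_congr fun w => ?_
    by_cases hw : c f w = 0
    · rw [hw, zero_mul, zero_mul]
    · have haw : a ≤ w := by
        by_contra hc
        exact hw (ha.2 w (not_le.1 hc))
      congr 1
      rw [c_mk]
      symm
      apply key h hh x' hx'
      have h1 : w⁻¹ * y ≤ a⁻¹ * y := by
        rcases eq_or_lt_of_le haw with h | h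
        · rw [h]
        · exact (mul_lt_mul_left (inv_lt_inv_iff.2 h) _).le
      have h2 : a⁻¹ * y ≤ a⁻¹ * (a * x) := by
        rcases eq_or_lt_of_le hle with h | h
        · rw [h]
        · exact (mul_lt_mul_right h _).le
      rw [inv_mul_cancel_left] at h2
      exact (h1.trans h2).trans hxx'
  rw [hres] at hy
  have h3 := hC h hh x' hx' y hy
  have h4 : a * x ≤ a * x' := by
    rcases eq_or_lt_of_le hxx' with h | h
    · rw [h]
    · exact (mul_lt_mul_right h _).le
  exact absurd (hle.trans h4) (not_le.2 h3)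

lemma exists_right_inv {f : Ser G k} (hf : f ≠ 0) : ∃ g, f * g = 1 := by
  classical
  obtain ⟨a, ha⟩ := exists_lead hf
  obtain ⟨m, hm⟩ := exists_maximal_of_chains_bounded
    (r := fun h h' : {h : Ser G k // Good f a h} => Ext h.1 h'.1)
    (fun C hC => by
      obtain ⟨u, hu, hub⟩ := exists_ub ha (Subtype.val '' C)
        (by rintro _ ⟨h, _, rfl⟩; exact h.2)
        (by
          rintro _ ⟨h, hh, rfl⟩ _ ⟨h', hh', rfl⟩ hne
          exact hC hh hh' (fun e => hne (congrArg _ e)))
      exact ⟨⟨u, hu⟩, fun h hh => hub h.1 ⟨h, hh, rfl⟩⟩)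
    (fun h1 h2 => h1.trans h2)
  refine ⟨m.1, ?_⟩
  by_contra hne
  have hres : (1 - f * m.1 : Ser G k) ≠ 0 := sub_ne_zero.2 (Ne.symm hne)
  obtain ⟨y0, hy0⟩ := exists_lead hres
  set t : k := (c f a)⁻¹ * c (1 - f * m.1) y0 with ht
  have htne : t ≠ 0 := mul_ne_zero (inv_ne_zero ha.1) hy0.1
  set b : G := a⁻¹ * y0 with hb
  set m' : Ser G k := m.1 + mono b t with hm'
  have hres' : ∀ y, c (1 - f * m') y = c (1 - f * m.1) y - c f (y * b⁻¹) * t := by
    intro y
    have h1 : (1 - f * m' : Ser G k) = (1 - f * m.1) - f * mono b t := by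
      rw [hm', mul_add]; abel
    rw [h1, c_sub, Pi.sub_apply, c_mul_mono]
  have hgt : ∀ y, c (1 - f * m') y ≠ 0 → y0 < y := by
    intro y hy
    by_contra hc
    apply hy
    rw [hres']
    rcases eq_or_lt_of_le (not_lt.1 hc) with h | h
    · subst h
      have : y * b⁻¹ = a := by rw [hb]; group
      rw [this, ht, ← mul_assoc, mul_inv_cancel₀ ha.1, one_mul, sub_self]
    · rw [hy0.2 y h]
      have : y * b⁻¹ < a := by
        have h1 := mul_lt_mul_left h b⁻¹
        have h2 : y0 * b⁻¹ = a := by rw [hb]; group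
        rwa [h2] at h1
      rw [ha.2 _ this]
      simp
  have hmx : ∀ x, c m.1 x ≠ 0 → a * x < y0 := fun x hx => m.2 x hx y0 hy0.1
  have hxb : ∀ x, c m.1 x ≠ 0 → x < b := by
    intro x hx
    have h1 := mul_lt_mul_right (hmx x hx) a⁻¹
    rwa [inv_mul_cancel_left] at h1
  have hmb : c m.1 b = 0 := by
    by_contra hc
    exact lt_irrefl _ (hxb b hc)
  have hgood : Good f a m' := by
    intro x hx y hy
    have hyy := hgt y hy
    by_cases hxm : c m.1 x = 0
    · have hxb' : x = b := by
        by_contra hc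
        apply hx
        rw [hm', c_add, Pi.add_apply, c_mono, if_neg hc, hxm, add_zero]
      rw [hxb', hb, mul_inv_cancel_left]
      exact hyy
    · exact (hmx x hxm).trans hyy
  have hext : Ext m.1 m' := by
    intro x hx y hy
    have hyb : y ≠ b := (lt_of_le_of_lt hy (hxb x hx)).ne
    rw [hm', c_add, Pi.add_apply, c_mono, if_neg hyb, add_zero]
  have hback := hm ⟨m', hgood⟩ hext
  have h1 : c m' b ≠ 0 := by
    rw [hm', c_add, Pi.add_apply, c_mono, if_pos rfl, hmb, zero_add]
    exact htne
  have h2 := hback b h1 b le_rfl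
  change c m' b = c m.1 b at h2
  rw [hmb] at h2
  exact h1 h2

noncomputable instance : DivisionRing (Ser G k) :=
  { (inferInstance : Ring (Ser G k)) with
    inv := fun f => open Classical in if hf : f = 0 then 0 else (exists_right_inv hf).choose
    mul_inv_cancel := fun f hf => by
      change f * (open Classical in if hf : f = 0 then 0 else (exists_right_inv hf).choose) = 1
      rw [dif_neg hf]
      exact (exists_right_inv hf).choose_spec
    inv_zero := by
      change (open Classical in if hf : (0 : Ser G k) = 0 then 0 else (exists_right_inv hf).choose) = 0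
      rw [dif_pos rfl]
    exists_pair_ne := exists_pair_ne _
    nnqsmul := _
    nnqsmul_def := fun _ _ => rfl
    qsmul := _
    qsmul_def := fun _ _ => rfl }

/-! ### The order -/

end Ser

namespace Ser

variable {G : Type*} [LinearOrder G] {k : Type*} [Field k] [LinearOrder k] [IsStrictOrderedRing k]
variable [Group G] [MulLeftStrictMono G] [MulRightStrictMono G]

noncomputable instance : LinearOrder (Ser G k) := inferInstanceAs (LinearOrder (Lex (HahnSeries G k)))

instance : IsOrderedAddMonoid (Ser G k) :=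
  inferInstanceAs (IsOrderedAddMonoid (Lex (HahnSeries G k)))

lemma pos_iff (f : Ser G k) : 0 < f ↔ ∃ a, (∀ b < a, c f b = 0) ∧ 0 < c f a := by
  have h := HahnSeries.lt_iff (Γ := G) (R := k) (0 : Lex (HahnSeries G k)) f
  constructor
  · intro h0
    obtain ⟨i, h1, h2⟩ := h.1 h0
    exact ⟨i, fun b hb => (h1 b hb).symm, h2⟩
  · rintro ⟨i, h1, h2⟩
    exact h.2 ⟨i, fun b hb => (h1 b hb).symm, h2⟩

lemma mono_pos (a : G) {r : k} (hr : 0 < r) : 0 < mono a r := by
  rw [pos_iff]
  refine ⟨a, fun b hb => ?_, ?_⟩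
  · rw [c_mono, if_neg hb.ne]
  · rw [c_mono, if_pos rfl]; exact hr

instance : IsStrictOrderedRing (Ser G k) := by
  have : ZeroLEOneClass (Ser G k) := ⟨(mono_pos (1 : G) zero_lt_one).le⟩
  refine IsStrictOrderedRing.of_mul_pos ?_
  intro f g hf hg
  rw [pos_iff] at hf hg ⊢
  obtain ⟨a, ha1, ha2⟩ := hf
  obtain ⟨b, hb1, hb2⟩ := hg
  have hla : Lead f a := ⟨ha2.ne', ha1⟩
  have hlb : Lead g b := ⟨hb2.ne', hb1⟩
  refine ⟨a * b, fun z hz => c_mul_lt hla hlb hz, ?_⟩
  rw [c_mul_lead hla hlb]
  exact mul_pos ha2 hb2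

lemma mono_injective {a b : G} (h : (mono a 1 : Ser G k) = mono b 1) : a = b := by
  have := congrFun (congrArg c h) a
  rw [c_mono, c_mono, if_pos rfl] at this
  by_contra hne
  rw [if_neg hne] at this
  exact one_ne_zero this

end Ser

end Pool.Agent.Y125.MN
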