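import Mathlib

/-!
# A linearly ordered group with an element having no square root in any overgroup with unique roots
-/

set_option autoImplicit false

namespace Pool.Agent.Y125.OG

lemma sqrt2_notMem : (√2 : ℝ) ∉ Submodule.span ℚ {(1 : ℝ)} := by
  intro h
  rw [Submodule.mem_span_singleton] at h
  obtain ⟨q, hq⟩ := h
  apply irrational_sqrt_two
  refine ⟨q, ?_⟩
  rw [← hq, Rat.smul_def, mul_one]

lemma exists_tau : ∃ f : ℝ →ₗ[ℚ] ℚ, f 1 = 0 ∧ f (√2) = 1 := by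
  obtain ⟨f, hf, hk⟩ := Submodule.exists_le_ker_of_notMem sqrt2_notMem
  refine ⟨(f (√2))⁻¹ • f, ?_, ?_⟩
  · have : (1 : ℝ) ∈ LinearMap.ker f := hk (Submodule.mem_span_singleton_self 1)
    rw [LinearMap.mem_ker] at this
    simp [this]
  · simp [hf]

/-- a `ℚ`-linear functional with `τ 1 = 0` and `τ √2 = 1` -/
noncomputable def τ : ℝ →ₗ[ℚ] ℚ := exists_tau.choose

lemma τ_one : τ 1 = 0 := exists_tau.choose_spec.1
lemma τ_sqrt : τ (√2) = 1 := exists_tau.choose_spec.2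

/-- the group -/
@[ext] structure G where
  m : ℤ
  l : ℤ
  v : ℝ
  x : ℝ
  z : ℚ

/-- first scalar -/
noncomputable def α (m l : ℤ) : ℝ := (√2) ^ m * 2 ^ l
/-- second scalar -/
noncomputable def β (m : ℤ) : ℝ := (√2) ^ m
/-- third scalar -/
def γ (m l : ℤ) : ℚ := 2 ^ m * 2 ^ l

lemma s2 : (√2 : ℝ) ≠ 0 := by positivity
lemma α_pos (m l : ℤ) : 0 < α m l := by unfold α; positivity
lemma β_pos (m : ℤ) : 0 < β m := by unfold β; positivity
lemma γ_pos (m l : ℤ) : 0 < γ m l := by unfold γ; positivity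
lemma α_add (m l m' l' : ℤ) : α (m + m') (l + l') = α m l * α m' l' := by
  unfold α
  rw [zpow_add₀ s2, zpow_add₀ two_ne_zero]; ring
lemma β_add (m m' : ℤ) : β (m + m') = β m * β m' := zpow_add₀ s2 _ _
lemma γ_add (m l m' l' : ℤ) : γ (m + m') (l + l') = γ m l * γ m' l' := by
  unfold γ
  rw [zpow_add₀ two_ne_zero, zpow_add₀ two_ne_zero]; ring
@[simp] lemma α_zero : α 0 0 = 1 := by simp [α]
@[simp] lemma β_zero : β 0 = 1 := by simp [β]
@[simp] lemma γ_zero : γ 0 0 = 1 := by simp [γ]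

lemma αβ (m l : ℤ) : α m l * β m = ((γ m l : ℚ) : ℝ) := by
  unfold α β γ
  push_cast
  have : (√2 : ℝ) ^ m * √2 ^ m = 2 ^ m := by
    rw [← mul_zpow, Real.mul_self_sqrt (by norm_num)]
  calc (√2 : ℝ) ^ m * 2 ^ l * √2 ^ m = (√2 ^ m * √2 ^ m) * 2 ^ l := by ring
    _ = 2 ^ m * 2 ^ l := by rw [this]

lemma τ_γ (m l : ℤ) (y : ℝ) : τ (α m l * β m * y) = γ m l * τ y := by
  rw [αβ]
  have := τ.map_smul (γ m l) y
  rw [Rat.smul_def] at this
  rw [this, smul_eq_mul]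

namespace G

noncomputable instance : Mul G := ⟨fun g h =>
  ⟨g.m + h.m, g.l + h.l, α h.m h.l * g.v + h.v, β h.m * g.x + h.x,
    γ h.m h.l * g.z + h.z + τ (α h.m h.l * g.v * h.x)⟩⟩

noncomputable instance : One G := ⟨⟨0, 0, 0, 0, 0⟩⟩

noncomputable instance : Inv G := ⟨fun g =>
  ⟨-g.m, -g.l, -(α g.m g.l)⁻¹ * g.v, -(β g.m)⁻¹ * g.x,
    (γ g.m g.l)⁻¹ * (τ (g.v * g.x) - g.z)⟩⟩

lemma mul_def (g h : G) : g * h =
  ⟨g.m + h.m, g.l + h.l, α h.m h.l * g.v + h.v, β h.m * g.x + h.x,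
    γ h.m h.l * g.z + h.z + τ (α h.m h.l * g.v * h.x)⟩ := rfl
lemma one_def : (1 : G) = ⟨0, 0, 0, 0, 0⟩ := rfl

noncomputable instance : Group G where
  mul_assoc a b c := by
    simp only [mul_def]
    ext1
    · exact add_assoc _ _ _
    · exact add_assoc _ _ _
    · simp only [α_add]; ring
    · simp only [β_add]; ring
    · simp only [γ_add, α_add]
      have h1 : α c.m c.l * (α b.m b.l * a.v + b.v) * c.x
          = α b.m b.l * α c.m c.l * a.v * c.x + α c.m c.l * b.v * c.x := by ring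
      have h2 : α b.m b.l * α c.m c.l * a.v * (β c.m * b.x + c.x)
          = α c.m c.l * β c.m * (α b.m b.l * a.v * b.x) + α b.m b.l * α c.m c.l * a.v * c.x := by
        ring
      rw [h1, h2, map_add, map_add, τ_γ]
      ring
  one_mul a := by
    simp only [mul_def, one_def]
    ext1 <;> simp
  mul_one a := by
    simp only [mul_def, one_def]
    ext1 <;> simp
  inv_mul_cancel a := by
    change (⟨-a.m, -a.l, -(α a.m a.l)⁻¹ * a.v, -(β a.m)⁻¹ * a.x,
      (γ a.m a.l)⁻¹ * (τ (a.v * a.x) - a.z)⟩ : G) * a = 1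
    simp only [mul_def, one_def]
    have h1 := (α_pos a.m a.l).ne'
    have h2 := (β_pos a.m).ne'
    have h3 := (γ_pos a.m a.l).ne'
    ext1
    · simp
    · simp
    · field_simp; ring
    · field_simp; ring
    · have h4 : α a.m a.l * (-(α a.m a.l)⁻¹ * a.v) * a.x = -(a.v * a.x) := by
        field_simp
      simp only [h4, map_neg]
      field_simp
      ring

/-- lexicographic key -/
def key (g : G) : ℤ ×ₗ ℤ ×ₗ ℝ ×ₗ ℝ ×ₗ ℚ :=
  toLex (g.m, toLex (g.l, toLex (g.v, toLex (g.x, g.z))))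

lemma key_injective : Function.Injective key := by
  intro g h hgh
  have h1 : (g.m, toLex (g.l, toLex (g.v, toLex (g.x, g.z)))) =
    (h.m, toLex (h.l, toLex (h.v, toLex (h.x, h.z)))) := toLex.injective hgh
  have h2 := toLex.injective (congrArg Prod.snd h1)
  have h3 := toLex.injective (congrArg Prod.snd h2)
  have h4 := toLex.injective (congrArg Prod.snd h3)
  exact G.ext (congrArg Prod.fst h1) (congrArg Prod.fst h2) (congrArg Prod.fst h3)
    (congrArg Prod.fst h4) (congrArg Prod.snd h4)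

noncomputable instance : LinearOrder G := LinearOrder.lift' key key_injective

lemma lt_iff (g h : G) : g < h ↔ g.m < h.m ∨ g.m = h.m ∧ (g.l < h.l ∨ g.l = h.l ∧
    (g.v < h.v ∨ g.v = h.v ∧ (g.x < h.x ∨ g.x = h.x ∧ g.z < h.z))) := by
  change key g < key h ↔ _
  unfold key
  rw [Prod.Lex.toLex_lt_toLex, Prod.Lex.toLex_lt_toLex, Prod.Lex.toLex_lt_toLex,
    Prod.Lex.toLex_lt_toLex]

instance : MulLeftStrictMono G := ⟨fun a b c h => by
  rw [lt_iff] at h
  rw [lt_iff]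
  simp only [mul_def]
  rcases h with h | ⟨h1, h | ⟨h2, h | ⟨h3, h | ⟨h4, h⟩⟩⟩⟩
  · left; linarith
  · right; refine ⟨by rw [h1], Or.inl ?_⟩; linarith
  · right; refine ⟨by rw [h1], Or.inr ⟨by rw [h2], Or.inl ?_⟩⟩; rw [h1, h2]; linarith
  · right; refine ⟨by rw [h1], Or.inr ⟨by rw [h2], Or.inr ⟨by rw [h1, h2, h3], Or.inl ?_⟩⟩⟩
    rw [h1]; linarith
  · right
    refine ⟨by rw [h1], Or.inr ⟨by rw [h2], Or.inr ⟨by rw [h1, h2, h3], Or.inr ⟨by rw [h1, h4], ?_⟩⟩⟩⟩
    rw [h1, h2, h4]; linarith⟩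

instance : MulRightStrictMono G := ⟨fun a b c h => by
  rw [lt_iff] at h
  change b * a < c * a
  rw [lt_iff]
  simp only [mul_def]
  have hα := α_pos a.m a.l
  have hβ := β_pos a.m
  have hγ := γ_pos a.m a.l
  rcases h with h | ⟨h1, h | ⟨h2, h | ⟨h3, h | ⟨h4, h⟩⟩⟩⟩
  · left; linarith
  · right; refine ⟨by rw [h1], Or.inl ?_⟩; linarith
  · right; refine ⟨by rw [h1], Or.inr ⟨by rw [h2], Or.inl ?_⟩⟩
    have := mul_lt_mul_of_pos_left h hα
    linarith
  · right; refine ⟨by rw [h1], Or.inr ⟨by rw [h2], Or.inr ⟨by rw [h3], Or.inl ?_⟩⟩⟩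
    have := mul_lt_mul_of_pos_left h hβ
    linarith
  · right
    refine ⟨by rw [h1], Or.inr ⟨by rw [h2], Or.inr ⟨by rw [h3], Or.inr ⟨by rw [h4], ?_⟩⟩⟩⟩
    have := mul_lt_mul_of_pos_left h hγ
    rw [h3]; linarith⟩

/-- the element `u` -/
noncomputable def u : G := ⟨1, 0, 0, 0, 0⟩
/-- the element `v` -/
noncomputable def e : G := ⟨0, 0, 1, 0, 0⟩
/-- the element `a` -/
noncomputable def a : G := ⟨-2, 1, 0, 0, 0⟩
/-- the element `x` -/
noncomputable def y : G := ⟨0, 0, 0, 1, 1⟩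

lemma α1 : α (-2) 1 = 1 := by
  unfold α
  have : (√2 : ℝ) ^ (-2 : ℤ) = 2⁻¹ := by
    rw [zpow_neg, zpow_ofNat, Real.sq_sqrt (by norm_num)]
  rw [this]; norm_num

lemma a_u : a * u = u * a := by
  simp only [mul_def, a, u]
  ext1 <;> simp

lemma a_e : a * e = e * a := by
  simp only [mul_def, a, e]
  ext1 <;> simp [α1]

lemma e_y : e * y = y * e := by
  simp only [mul_def, e, y]
  ext1 <;> simp [τ_one]

lemma uu : u * e * (u * e) * a = ⟨0, 1, √2 + 1, 0, 0⟩ := by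
  simp only [mul_def, u, e, a]
  ext1
  · norm_num
  · norm_num
  · have h : α 1 0 = √2 := by simp [α]
    simp [α1, h]
  · simp
  · simp

lemma ua : u * u * a = ⟨0, 1, 0, 0, 0⟩ := by
  simp only [mul_def, u, a]
  ext1 <;> simp

lemma comm_y : (u * e * (u * e) * a) * y = y * (u * e * (u * e) * a) := by
  rw [uu]
  simp only [mul_def, y]
  ext1
  · simp
  · simp
  · simp
  · simp
  · have h : γ 0 1 = 2 := by simp [γ]
    simp [h, τ_one, τ_sqrt]
    norm_num

lemma not_comm_y : (u * u * a) * y ≠ y * (u * u * a) := by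
  rw [ua]
  simp only [mul_def, y]
  intro hc
  have hz := congrArg G.z hc
  have h : γ 0 1 = 2 := by simp [γ]
  simp [h] at hz

end G

end Pool.Agent.Y125.OG
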